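import Pool.Agent.H104Z.Lift.Defs

set_option autoImplicit false
set_option maxHeartbeats 400000
set_option linter.unusedSectionVars false

/-! Projections in C*-algebras of real rank zero. -/

namespace Pool.Agent.H104Z.Lift

universe u

open Matrix

section Unital

variable {B : Type u} [CStarAlgebra B] [PartialOrder B] [StarOrderedRing B]

theorem exists_polar {r d y : B} (hr : IsStarProjection r) (h : r = d * y * r) :
    ∃ c : B, star (y * r * c) * (y * r * c) = r := by
  have hrr : r * r = r := hr.isIdempotentElem.eq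
  have hrs : star r = r := hr.isSelfAdjoint.star_eq
  set z := y * r with hz
  set g := star z * z + (1 - r) with hg
  have h0 : (0 : B) ≤ 1 - r := hr.one_sub.nonneg
  have h1 : r ≤ ‖star d * d‖ • (star z * z) := by
    have := CStarAlgebra.star_left_conjugate_le_norm_smul (a := z) (b := star d * d)
      (IsSelfAdjoint.star_mul_self d)
    have e : star z * (star d * d) * z = r := by
      rw [← mul_assoc (star z), ← star_mul, mul_assoc (star _) d, hz, ← mul_assoc d, ← h, hrs, hrr]
    rwa [e] at this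
  have hgp : 0 ≤ g := add_nonneg (star_mul_self_nonneg z) h0
  have h2 : (1 : B) ≤ (‖star d * d‖ + 1) • g := by
    rw [hg, smul_add, add_smul, add_smul, one_smul, one_smul]
    have a1 : 0 ≤ star z * z := star_mul_self_nonneg z
    have a2 : 0 ≤ ‖star d * d‖ • (1 - r) := smul_nonneg (norm_nonneg _) h0
    calc (1 : B) = r + 0 + (0 + (1 - r)) := by abel
      _ ≤ _ := add_le_add (add_le_add h1 a1) (add_le_add a2 le_rfl)
  have h3 : IsUnit g := by
    have := CStarAlgebra.isUnit_of_le 1 h2 isStrictlyPositive_one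
    rw [Algebra.smul_def] at this
    exact ((Commute.isUnit_mul_iff (Algebra.commutes _ g)).1 this).2
  have h4 : IsStrictlyPositive g := ⟨hgp, h3⟩
  have hzr : z * r = z := by rw [hz, mul_assoc, hrr]
  have hrz : r * star z = star z := by rw [← hrs, ← star_mul, hzr]
  have h5 : r * g = star z * z := by
    rw [hg, mul_add, ← mul_assoc, hrz, mul_sub, mul_one, hrr, sub_self, add_zero]
  have h6 : g * r = star z * z := by
    rw [hg, add_mul, mul_assoc, hzr, sub_mul, one_mul, hrr, sub_self, add_zero]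
  have h7 : Commute (g ^ (-(1 / 2) : ℝ)) r := by
    rw [CFC.rpow_def]
    exact Commute.cfc_nnreal (h6.trans h5.symm) _
  have h8 : star (g ^ (-(1 / 2) : ℝ)) = g ^ (-(1 / 2) : ℝ) :=
    (IsSelfAdjoint.of_nonneg CFC.rpow_nonneg).star_eq
  refine ⟨g ^ (-(1 / 2) : ℝ), ?_⟩
  rw [star_mul, h8, mul_assoc, ← mul_assoc (star z), ← h5, ← mul_assoc, ← mul_assoc, h7.eq,
    mul_assoc r, mul_assoc r, CFC.conjugate_rpow_neg_one_half g h4, mul_one]

theorem exists_proj {a b : B} (ha : 0 ≤ a) (hb : IsSelfAdjoint b) (hu : IsUnit b)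
    (hab : ‖a - algebraMap ℝ B (‖a‖ / 2) - b‖ < ‖a‖ / 4) :
    ∃ r d : B, IsStarProjection r ∧ r ≠ 0 ∧ r = d * a * r := by
  set t := ‖a‖ with ht
  have ht0 : 0 < t := by have := norm_nonneg (a - algebraMap ℝ B (t / 2) - b); linarith
  let f : ℝ → ℝ := fun s => (1 + s / |s|) / 2
  have h0 : (0 : ℝ) ∉ spectrum ℝ b := (spectrum.zero_notMem_iff ℝ).2 hu
  have hne : ∀ s ∈ spectrum ℝ b, s ≠ 0 := fun s hs e => h0 (e ▸ hs)
  have hf : ContinuousOn f (spectrum ℝ b) :=
    (continuousOn_const.add (continuousOn_id.div continuous_abs.continuousOn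
      (fun s hs => abs_ne_zero.2 (hne s hs)))).div_const 2
  have hpos : ∀ s, 0 < s → f s = 1 := fun s hs => by
    simp only [f, abs_of_pos hs, div_self hs.ne']
    norm_num
  have hneg : ∀ s, s < 0 → f s = 0 := fun s hs => by
    simp only [f, abs_of_neg hs, div_neg, div_self hs.ne]
    norm_num
  set r := cfc f b with hr
  have hrs : IsSelfAdjoint r := cfc_predicate f b
  have hrr : r * r = r := by
    rw [hr, ← cfc_mul f f b hf hf]
    refine cfc_congr (fun s hs => ?_)
    rcases lt_or_gt_of_ne (hne s hs) with h | h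
    · simp [hneg s h]
    · simp [hpos s h]
  have hP : IsStarProjection r := ⟨hrr, hrs⟩
  have hrb : r * b = cfc (fun s => f s * s) b := by
    rw [cfc_mul f (fun s => s) b hf continuousOn_id, cfc_id' ℝ b]
  have hc : b * r = r * b := ((Commute.refl b).cfc_real f).eq.symm
  have h1 : 0 ≤ r * b := by
    rw [hrb]
    refine cfc_nonneg (fun s hs => ?_)
    rcases lt_or_gt_of_ne (hne s hs) with h | h
    · simp [hneg s h]
    · simp [hpos s h, h.le]
  have h2 : b ≤ r * b := by
    rw [hrb]
    conv_lhs => rw [← cfc_id' ℝ b]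
    refine cfc_mono (fun s hs => ?_) continuousOn_id (hf.mul continuousOn_id)
    rcases lt_or_gt_of_ne (hne s hs) with h | h
    · simp [hneg s h, h.le]
    · simp [hpos s h]
  set e := a - algebraMap ℝ B (t / 2) - b with he
  have hes : IsSelfAdjoint e :=
    ((IsSelfAdjoint.of_nonneg ha).sub (IsSelfAdjoint.algebraMap B (.all _))).sub hb
  have hmono : algebraMap ℝ B ‖e‖ ≤ algebraMap ℝ B (t / 4) := by
    rw [← sub_nonneg, ← map_sub, Algebra.algebraMap_eq_smul_one]
    exact smul_nonneg (by linarith) zero_le_one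
  have h3 : e ≤ algebraMap ℝ B (t / 4) := hes.le_algebraMap_norm_self.trans hmono
  have h4 : -algebraMap ℝ B (t / 4) ≤ e := (neg_le_neg hmono).trans hes.neg_algebraMap_norm_le_self
  have hae : a = e + algebraMap ℝ B (t / 2) + b := by rw [he]; abel
  have hr0 : r ≠ 0 := by
    intro h
    rw [h, zero_mul] at h2
    have h5 : a ≤ algebraMap ℝ B (t / 4 + t / 2) := by
      rw [map_add]
      calc a = e + algebraMap ℝ B (t / 2) + b := hae
        _ ≤ algebraMap ℝ B (t / 4) + algebraMap ℝ B (t / 2) + 0 :=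
          add_le_add (add_le_add h3 le_rfl) h2
        _ = _ := add_zero _
    have := (CStarAlgebra.norm_le_iff_le_algebraMap a (by linarith) ha).2 h5
    linarith
  have h6 : (t / 4) • r ≤ r * a * r := by
    have a1 := hrs.conjugate_le_conjugate h4
    have a2 : r * a * r = r * e * r + (t / 2) • r + r * b := by
      conv_lhs => rw [hae]
      rw [mul_add, mul_add, add_mul, add_mul, mul_assoc r b, hc, ← mul_assoc, hrr,
        Algebra.algebraMap_eq_smul_one]
      simp [hrr]
    have a3 : r * -algebraMap ℝ B (t / 4) * r = -((t / 4) • r) := by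
      rw [Algebra.algebraMap_eq_smul_one]
      simp [hrr]
    rw [a3] at a1
    rw [a2]
    calc (t / 4) • r = -((t / 4) • r) + (t / 2) • r + 0 := by module
      _ ≤ _ := add_le_add (add_le_add a1 le_rfl) h1
  have h7 : algebraMap ℝ B (t / 4) ≤ r * a * r + (t / 4) • (1 - r) := by
    rw [Algebra.algebraMap_eq_smul_one]
    calc (t / 4) • (1 : B) = (t / 4) • r + (t / 4) • (1 - r) := by module
      _ ≤ _ := add_le_add h6 le_rfl
  have h8 : IsUnit (r * a * r + (t / 4) • (1 - r)) :=
    CStarAlgebra.isUnit_of_le _ h7 (isStrictlyPositive_algebraMap (by linarith))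
  obtain ⟨g, hg⟩ := h8
  refine ⟨r, ↑g⁻¹ * r, hP, hr0, ?_⟩
  have h9 : (g : B) * r = r * a * r := by
    rw [hg, add_mul, smul_mul_assoc, sub_mul, one_mul, hrr, sub_self, smul_zero, add_zero,
      mul_assoc, hrr]
  rw [mul_assoc, mul_assoc, ← mul_assoc r, ← h9, Units.inv_mul_cancel_left]

end Unital

section NonUnital

variable {A : Type u} [NonUnitalCStarAlgebra A]

theorem exists_sub (hA : RealRankZero A) {x : A} (hx : x ≠ 0) :
    ∃ r c c' : A, IsStarProjection r ∧ r ≠ 0 ∧ star (x * c) * (x * c) = r ∧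
      star (star x * c') * (star x * c') = r := by
  let := CStarAlgebra.spectralOrder (Unitization ℂ A)
  have := CStarAlgebra.spectralOrderedRing (Unitization ℂ A)
  set X : Unitization ℂ A := (x : Unitization ℂ A) with hX
  have hX0 : X ≠ 0 := fun h => hx (Unitization.inr_injective (R := ℂ) (by simpa using h))
  have ha : 0 ≤ star X * X := star_mul_self_nonneg X
  have ht : 0 < ‖star X * X‖ := by
    rw [CStarRing.norm_star_mul_self]
    have := norm_pos_iff.2 hX0
    positivity
  obtain ⟨b, hb, hu, hab⟩ := hA (star X * X - algebraMap ℝ _ (‖star X * X‖ / 2))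
    ((IsSelfAdjoint.of_nonneg ha).sub (IsSelfAdjoint.algebraMap _ (.all _))) (‖star X * X‖ / 4)
    (by linarith)
  obtain ⟨r, d, hP, hr0, hr⟩ := exists_proj ha hb hu hab
  obtain ⟨c, hc⟩ := exists_polar (d := d * star X) (y := X) hP (by rw [mul_assoc d]; exact hr)
  obtain ⟨c', hc'⟩ := exists_polar (d := d) (y := star X * X) hP hr
  have hf : r.fst = 0 := by
    rw [hr]
    simp [hX]
  have lift : ∀ z : Unitization ℂ A, z.fst = 0 → ((z.snd : A) : Unitization ℂ A) = z :=
    fun z hz => by ext <;> simp [hz]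
  have e0 := lift r hf
  have e1 := lift (r * c) (by simp [hf])
  have e2 := lift (X * r * c') (by simp [hf])
  refine ⟨r.snd, (r * c).snd, (X * r * c').snd, ⟨?_, ?_⟩, fun h => hr0 (by rw [← e0, h]; simp),
    ?_, ?_⟩
  · refine Unitization.inr_injective (R := ℂ) ?_
    rw [Unitization.inr_mul, e0, hP.isIdempotentElem.eq]
  · refine Unitization.inr_injective (R := ℂ) ?_
    rw [Unitization.inr_star, e0, hP.isSelfAdjoint.star_eq]
  · refine Unitization.inr_injective (R := ℂ) ?_
    rw [Unitization.inr_mul, Unitization.inr_star, Unitization.inr_mul, e1, e0, ← mul_assoc X, hc]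
  · refine Unitization.inr_injective (R := ℂ) ?_
    rw [Unitization.inr_mul, Unitization.inr_star, Unitization.inr_mul, Unitization.inr_star, e2,
      e0, ← mul_assoc (star X), ← mul_assoc (star X), hc']

end NonUnital

section Star

variable {A : Type u} [NonUnitalRing A] [StarRing A]

/-- An element as a one by one matrix. -/
def m1 (p : A) : Matrix (Fin 1) (Fin 1) A := Matrix.of fun _ _ => p

theorem m1_mul (p q : A) : m1 p * m1 q = m1 (p * q) := by
  ext i j
  rw [Matrix.mul_apply, Fin.sum_univ_one]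
  rfl

theorem m1_star (p : A) : (m1 p)ᴴ = m1 (star p) := rfl

/-- A projection as a one by one projection matrix. -/
def pr1 {p : A} (hp : IsStarProjection p) : Proj A :=
  ⟨1, m1 p, by rw [m1_mul, hp.isIdempotentElem.eq], by rw [m1_star, hp.isSelfAdjoint.star_eq]⟩

/-- The class of a projection. -/
def pj {p : A} (hp : IsStarProjection p) : VP A := VP.mk (pr1 hp)

theorem pj_eq_zero {p : A} (hp : IsStarProjection p) (h : pj hp = 0) : p = 0 := by
  obtain ⟨v, h1, -⟩ : MvNP (m1 p) (0 : Matrix (Fin 0) (Fin 0) A) := Quotient.exact h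
  have := congrFun (congrFun h1 0) 0
  rw [Matrix.mul_apply, Fin.sum_univ_zero] at this
  exact this.symm

theorem pj_congr {p q w : A} (hp : IsStarProjection p) (hq : IsStarProjection q)
    (h1 : star w * w = p) (h2 : w * star w = q) : pj hp = pj hq :=
  Quotient.sound (show MvNP (m1 p) (m1 q) from
    ⟨m1 w, by rw [m1_star, m1_mul, h1], by rw [m1_star, m1_mul, h2]⟩)

theorem pj_add {p q : A} (hp : IsStarProjection p) (hq : IsStarProjection q) (h : p * q = 0) :
    pj (hp.add hq h) = pj hp + pj hq := by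
  have h' : q * p = 0 := by
    rw [← hp.isSelfAdjoint.star_eq, ← hq.isSelfAdjoint.star_eq, ← star_mul, h, star_zero]
  refine Quotient.sound (MvNP.trans (pr1 (hp.add hq h)).idem (Proj.add (pr1 hp) (pr1 hq)).idem ?_
    (Proj.add_mvn (pr1 hp) (pr1 hq)))
  change MvNP (m1 (p + q)) (fromBlocks (m1 p) 0 0 (m1 q))
  refine ⟨Matrix.of fun j _ => Sum.elim (fun _ => p) (fun _ => q) j, ?_, ?_⟩
  · ext i j
    simp [Matrix.mul_apply, m1, hp.isSelfAdjoint.star_eq, hq.isSelfAdjoint.star_eq,
      hp.isIdempotentElem.eq, hq.isIdempotentElem.eq]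
  · ext i j
    rcases i with i | i <;> rcases j with j | j <;>
      simp [Matrix.mul_apply, m1, hp.isSelfAdjoint.star_eq, hq.isSelfAdjoint.star_eq,
        hp.isIdempotentElem.eq, hq.isIdempotentElem.eq, h, h']

theorem pj_sub {p q : A} (hp : IsStarProjection p) (hq : IsStarProjection q) (h : q * p = p) :
    pj hq = pj hp + pj (hp.sub_of_mul_eq_right hq h) := by
  have h' : p * q = p := by
    rw [← hp.isSelfAdjoint.star_eq, ← hq.isSelfAdjoint.star_eq, ← star_mul, h]
  rw [← pj_add hp _ (by rw [mul_sub, h', hp.isIdempotentElem.eq, sub_self])]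
  congr 1
  abel

theorem pj_le {r q w : A} (hr : IsStarProjection r) (hq : IsStarProjection q)
    (h1 : star w * w = r) (h2 : q * w = w) : ∃ y, pj hq = pj hr + y := by
  have hrr := hr.isIdempotentElem.eq
  have hrs := hr.isSelfAdjoint.star_eq
  have e1 : star (w * r) * (w * r) = r := by
    rw [star_mul, hrs, mul_assoc, ← mul_assoc (star w), h1, hrr, hrr]
  have hs : IsStarProjection (w * r * star (w * r)) := by
    refine ⟨?_, IsSelfAdjoint.mul_star_self _⟩
    change _ * _ = _
    rw [mul_assoc, ← mul_assoc (star (w * r)), e1, ← mul_assoc, mul_assoc w r r, hrr]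
  refine ⟨_, (pj_congr hr hs e1 rfl) ▸ pj_sub hs hq ?_⟩
  rw [← mul_assoc, ← mul_assoc, h2]

theorem pj_split {u : A} (hu : IsStarProjection u) {α β : VP A} (h : pj hu = α + β) :
    ∃ (p : A) (hp : IsStarProjection p), pj hp = α ∧ u * p = p := by
  obtain ⟨a⟩ := α
  obtain ⟨b⟩ := β
  have h1 : MvNP (m1 u) (Proj.add a b).e := Quotient.exact h
  obtain ⟨v, h2, h3⟩ : MvNP (m1 u) (fromBlocks a.e 0 0 b.e) :=
    MvNP.trans (pr1 hu).idem (Berg.idem_blocks a.idem b.idem) h1 (Proj.add_mvn a b).symm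
  obtain ⟨d, hd, hd', had⟩ : ∃ d : Matrix (Fin a.n) (Fin a.n ⊕ Fin b.n) A,
      d * fromBlocks a.e 0 0 b.e = d ∧ d * dᴴ = a.e ∧ a.e * d = d := by
    have hi : ∀ i j, ∑ k, a.e i k * a.e k j = a.e i j := fun i j => congrFun (congrFun a.idem i) j
    have hs : ∀ i j, star (a.e i j) = a.e j i := fun i j => congrFun (congrFun a.sa j) i
    refine ⟨fromCols a.e 0, ?_, ?_, ?_⟩
    · ext i (j | j) <;> simp [Matrix.mul_apply, Fintype.sum_sum_type, hi]
    · ext i j
      simp [Matrix.mul_apply, Fintype.sum_sum_type, hi, hs]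
    · ext i (j | j) <;> simp [Matrix.mul_apply, hi]
  obtain ⟨w, e1, e2, e3⟩ : ∃ w : Matrix (Fin a.n) (Fin 1) A,
      w * wᴴ = a.e ∧ a.e * w = w ∧ w * m1 u = w := by
    refine ⟨d * v, ?_, ?_, ?_⟩
    · rw [conjTranspose_mul, Matrix.mul_assoc, ← Matrix.mul_assoc v, h3, ← Matrix.mul_assoc, hd,
        hd']
    · rw [← Matrix.mul_assoc, had]
    · rw [← h2, Matrix.mul_assoc, ← Matrix.mul_assoc v, h3, ← Matrix.mul_assoc, hd]
  have e4 : wᴴ * w = m1 ((wᴴ * w) 0 0) := by
    ext i j
    rw [Subsingleton.elim i 0, Subsingleton.elim j 0]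
    rfl
  have inj : ∀ x y : A, m1 x = m1 y → x = y := fun x y h => congrFun (congrFun h 0) 0
  have hp : IsStarProjection ((wᴴ * w) 0 0) := by
    refine ⟨inj _ _ ?_, inj _ _ ?_⟩
    · rw [← m1_mul, ← e4, Matrix.mul_assoc, ← Matrix.mul_assoc w, e1, e2]
    · rw [← m1_star, ← e4, conjTranspose_mul, conjTranspose_conjTranspose]
  refine ⟨_, hp, Quotient.sound (show MvNP (m1 _) a.e from ⟨w, e4, e1⟩), inj _ _ ?_⟩
  have e5 : m1 u * wᴴ = wᴴ := by
    have := congrArg conjTranspose e3
    rwa [conjTranspose_mul, m1_star, hu.isSelfAdjoint.star_eq] at this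
  rw [← m1_mul, ← e4, ← Matrix.mul_assoc, e5]

theorem pj_map {B : Type u} [NonUnitalRing B] [StarRing B] (φ : A →⋆ₙ+* B) {p : A}
    (hp : IsStarProjection p) : VP.map φ (pj hp) = pj (hp.map φ) := rfl

end Star

theorem orth {A : Type u} [NonUnitalCStarAlgebra A] (hA : RealRankZero A) {p q : A}
    (hp : IsStarProjection p) (hq : IsStarProjection q)
    (h : ∀ x y z : VP A, pj hp = x + y → pj hq = x + z → x = 0) : p * q = 0 := by
  by_contra hx
  obtain ⟨r, c, c', hr, hr0, h1, h2⟩ := exists_sub hA hx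
  obtain ⟨y, hy⟩ := pj_le hr hp h1 (by rw [← mul_assoc, ← mul_assoc, hp.isIdempotentElem.eq])
  obtain ⟨z, hz⟩ := pj_le hr hq h2 (by
    rw [star_mul, hq.isSelfAdjoint.star_eq, ← mul_assoc, ← mul_assoc, hq.isIdempotentElem.eq])
  exact hr0 (pj_eq_zero hr (h _ y z hy hz))

end Pool.Agent.H104Z.Lift
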