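import Pool.Agent.H104Z.Berg.Defs

set_option autoImplicit false

/-! Nonstable K-theory of C*-algebras (projections up to Murray-von Neumann equivalence), regular
rings, real rank zero, and liftings of diagrams of monoids. -/

namespace Pool.Agent.H104Z.Lift

universe u

open CategoryTheory Matrix Pool.Agent.H104Z.Berg

section MvN

variable {A : Type u} [NonUnitalRing A] [StarRing A] {ι κ μ ν : Type} [Fintype ι] [Fintype κ]
  [Fintype μ] [Fintype ν]

/-- Murray-von Neumann equivalence of projections: `p = v* v` and `q = v v*`. -/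
def MvNP (p : Matrix ι ι A) (q : Matrix κ κ A) : Prop :=
  ∃ v : Matrix κ ι A, vᴴ * v = p ∧ v * vᴴ = q

theorem MvNP.symm {p : Matrix ι ι A} {q : Matrix κ κ A} (h : MvNP p q) : MvNP q p := by
  obtain ⟨v, h1, h2⟩ := h
  exact ⟨vᴴ, by rwa [conjTranspose_conjTranspose], by rwa [conjTranspose_conjTranspose]⟩

theorem MvNP.trans {p : Matrix ι ι A} {q : Matrix κ κ A} {r : Matrix μ μ A} (hp : p * p = p)
    (hr : r * r = r) (h : MvNP p q) (h' : MvNP q r) : MvNP p r := by
  obtain ⟨v, h1, h2⟩ := h
  obtain ⟨w, h3, h4⟩ := h'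
  refine ⟨w * v, ?_, ?_⟩
  · rw [conjTranspose_mul, Matrix.mul_assoc, ← Matrix.mul_assoc wᴴ, h3, ← h2, Matrix.mul_assoc,
      ← Matrix.mul_assoc vᴴ, h1, hp]
  · rw [conjTranspose_mul, Matrix.mul_assoc, ← Matrix.mul_assoc v, h2, ← h3, Matrix.mul_assoc,
      ← Matrix.mul_assoc w, h4, hr]

theorem MvNP.of_equiv (σ : ι ≃ κ) {p : Matrix ι ι A} {q : Matrix κ κ A} (hp : p * p = p)
    (hs : pᴴ = p) (h : ∀ i j, q (σ i) (σ j) = p i j) : MvNP p q := by
  refine ⟨p.submatrix σ.symm id, ?_, ?_⟩
  · rw [conjTranspose_submatrix, hs, submatrix_mul_equiv, hp]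
    rfl
  · have : p.submatrix σ.symm id * p.submatrix id σ.symm = (p * p).submatrix σ.symm σ.symm := rfl
    rw [conjTranspose_submatrix, hs, this, hp]
    ext i j
    rw [submatrix_apply, ← h]
    simp

theorem MvNP.blocks {p : Matrix ι ι A} {q : Matrix κ κ A} {p' : Matrix μ μ A} {q' : Matrix ν ν A}
    (h : MvNP p q) (h' : MvNP p' q') : MvNP (fromBlocks p 0 0 p') (fromBlocks q 0 0 q') := by
  obtain ⟨v, h1, h2⟩ := h
  obtain ⟨w, h3, h4⟩ := h'
  refine ⟨fromBlocks v 0 0 w, ?_, ?_⟩
  · rw [fromBlocks_conjTranspose, fromBlocks_multiply, h1, h3]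
    simp
  · rw [fromBlocks_conjTranspose, fromBlocks_multiply, h2, h4]
    simp

theorem sa_blocks {p : Matrix ι ι A} {q : Matrix κ κ A} (hp : pᴴ = p) (hq : qᴴ = q) :
    (fromBlocks p 0 0 q)ᴴ = fromBlocks p 0 0 q := by
  rw [fromBlocks_conjTranspose, hp, hq]
  simp

end MvN

/-- A projection (self-adjoint idempotent square matrix) over `A`, of any finite size. -/
structure Proj (A : Type u) [NonUnitalRing A] [StarRing A] where
  /-- the size -/
  n : ℕ
  /-- the matrix -/
  e : Matrix (Fin n) (Fin n) A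
  idem : e * e = e
  sa : eᴴ = e

namespace Proj

variable {A : Type u} [NonUnitalRing A] [StarRing A]

instance setoid (A : Type u) [NonUnitalRing A] [StarRing A] : Setoid (Proj A) where
  r a b := MvNP a.e b.e
  iseqv := ⟨fun a => ⟨a.e, by rw [a.sa, a.idem], by rw [a.sa, a.idem]⟩, MvNP.symm,
    fun {a _ c} => MvNP.trans a.idem c.idem⟩

/-- The block diagonal sum of two projections. -/
def add (a b : Proj A) : Proj A where
  n := a.n + b.n
  e := reindex finSumFinEquiv finSumFinEquiv (fromBlocks a.e 0 0 b.e)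
  idem := by
    rw [reindex_apply, submatrix_mul_equiv, idem_blocks a.idem b.idem]
  sa := by rw [conjTranspose_reindex, sa_blocks a.sa b.sa]

/-- The empty matrix (it is equivalent to every zero matrix). -/
def zero : Proj A := ⟨0, 0, by simp, by simp⟩

theorem add_mvn (a b : Proj A) : MvNP (fromBlocks a.e 0 0 b.e) (add a b).e :=
  MvNP.of_equiv finSumFinEquiv (idem_blocks a.idem b.idem) (sa_blocks a.sa b.sa)
    (fun i j => by simp [add])

theorem add_congr {a a' b b' : Proj A} (h : a ≈ a') (h' : b ≈ b') : add a b ≈ add a' b' :=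
  MvNP.trans (add a b).idem (add a' b').idem (add_mvn a b).symm
    (MvNP.trans (idem_blocks a.idem b.idem) (add a' b').idem (MvNP.blocks h h') (add_mvn a' b'))

theorem add_comm' (a b : Proj A) : add a b ≈ add b a :=
  MvNP.trans (add a b).idem (add b a).idem (add_mvn a b).symm
    (MvNP.trans (idem_blocks a.idem b.idem) (add b a).idem
      (MvNP.of_equiv (Equiv.sumComm _ _) (q := fromBlocks b.e 0 0 a.e) (idem_blocks a.idem b.idem)
        (sa_blocks a.sa b.sa) (by rintro (i | i) (j | j) <;> rfl)) (add_mvn b a))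

theorem add_zero' (a : Proj A) : add a zero ≈ a :=
  MvNP.trans (add a zero).idem a.idem (add_mvn a zero).symm
    (MvNP.of_equiv (Equiv.sumEmpty _ (Fin 0)) (idem_blocks a.idem zero.idem)
      (sa_blocks a.sa zero.sa)
      (by
        rintro (i | i) (j | j)
        · rfl
        · exact j.elim0
        · exact i.elim0
        · exact i.elim0))

theorem add_assoc' (a b c : Proj A) : add (add a b) c ≈ add a (add b c) := by
  have hab := idem_blocks a.idem b.idem
  have hbc := idem_blocks b.idem c.idem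
  have h1 : MvNP (add (add a b) c).e (fromBlocks (fromBlocks a.e 0 0 b.e) 0 0 c.e) :=
    MvNP.trans (add (add a b) c).idem (idem_blocks hab c.idem) (add_mvn (add a b) c).symm
      (MvNP.blocks (add_mvn a b).symm (setoid A |>.iseqv.refl c))
  have h2 : MvNP (fromBlocks a.e 0 0 (fromBlocks b.e 0 0 c.e)) (add a (add b c)).e :=
    MvNP.trans (idem_blocks a.idem hbc) (add a (add b c)).idem
      (MvNP.blocks (setoid A |>.iseqv.refl a) (add_mvn b c)) (add_mvn a (add b c))
  refine MvNP.trans (add (add a b) c).idem (add a (add b c)).idem h1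
    (MvNP.trans (idem_blocks hab c.idem) (add a (add b c)).idem
      (MvNP.of_equiv (Equiv.sumAssoc _ _ _) (idem_blocks hab c.idem)
        (sa_blocks (sa_blocks a.sa b.sa) c.sa) ?_) h2)
  rintro ((i | i) | i) ((j | j) | j) <;> rfl

variable {B : Type u} [NonUnitalRing B] [StarRing B]

/-- The entrywise image of a projection under a star ring homomorphism. -/
def map (φ : A →⋆ₙ+* B) (a : Proj A) : Proj B where
  n := a.n
  e := a.e.map φ
  idem := by rw [← Matrix.map_mul, a.idem]
  sa := by rw [← conjTranspose_map φ (fun x => map_star φ x), a.sa]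

theorem map_congr (φ : A →⋆ₙ+* B) {a b : Proj A} (h : a ≈ b) : map φ a ≈ map φ b := by
  obtain ⟨v, h1, h2⟩ := h
  have h3 : (v.map φ)ᴴ * v.map φ = a.e.map φ := by
    rw [← conjTranspose_map φ (fun x => map_star φ x), ← Matrix.map_mul, h1]
  have h4 : v.map φ * (v.map φ)ᴴ = b.e.map φ := by
    rw [← conjTranspose_map φ (fun x => map_star φ x), ← Matrix.map_mul, h2]
  exact ⟨v.map φ, h3, h4⟩

theorem map_add' (φ : A →⋆ₙ+* B) (a b : Proj A) :
    map φ (add a b) = add (map φ a) (map φ b) := by
  unfold map add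
  congr 1
  ext i j
  simp only [reindex_apply, map_apply, submatrix_apply]
  rcases finSumFinEquiv.symm i with i | i <;> rcases finSumFinEquiv.symm j with j | j <;> simp

end Proj

/-- Nonstable K-theory of a star ring: equivalence classes of projections in matrices over `A`. -/
def VP (A : Type u) [NonUnitalRing A] [StarRing A] : Type u := Quotient (Proj.setoid A)

namespace VP

variable {A : Type u} [NonUnitalRing A] [StarRing A]

/-- The class of a projection. -/
def mk (a : Proj A) : VP A := Quotient.mk _ a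

instance : Add (VP A) := ⟨Quotient.map₂ Proj.add (fun _ _ h _ _ h' => Proj.add_congr h h')⟩

instance : Zero (VP A) := ⟨mk Proj.zero⟩

instance : AddCommMonoid (VP A) where
  add_assoc := by
    rintro ⟨a⟩ ⟨b⟩ ⟨c⟩
    exact Quotient.sound (Proj.add_assoc' a b c)
  add_comm := by
    rintro ⟨a⟩ ⟨b⟩
    exact Quotient.sound (Proj.add_comm' a b)
  add_zero := by
    rintro ⟨a⟩
    exact Quotient.sound (Proj.add_zero' a)
  zero_add := by
    rintro ⟨a⟩
    exact Quotient.sound (Setoid.trans (Proj.add_comm' _ a) (Proj.add_zero' a))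
  nsmul := nsmulRec

/-- The map induced by a star ring homomorphism. -/
def map {B : Type u} [NonUnitalRing B] [StarRing B] (φ : A →⋆ₙ+* B) : VP A → VP B :=
  Quotient.map (Proj.map φ) (fun _ _ h => Proj.map_congr φ h)

end VP

/-- The category of C*-algebras, not necessarily unital. -/
structure CSt : Type (u + 1) where
  /-- the underlying type -/
  carrier : Type u
  [str : NonUnitalCStarAlgebra carrier]

attribute [instance] CSt.str

/-- Morphisms are the star homomorphisms. -/
instance : Category CSt.{u} where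
  Hom A B := A.carrier →⋆ₙₐ[ℂ] B.carrier
  id A := NonUnitalStarAlgHom.id ℂ A.carrier
  comp f g := NonUnitalStarAlgHom.comp g f

/-- A star homomorphism of C*-algebras as a star ring homomorphism. -/
def CSt.ringHom {A B : CSt.{u}} (f : A ⟶ B) : A.carrier →⋆ₙ+* B.carrier :=
  ((show A.carrier →⋆ₙₐ[ℂ] B.carrier from f) : A.carrier →⋆ₙ+* B.carrier)

/-- Von Neumann regular rings. -/
def Regular (R : Type u) [NonUnitalRing R] : Prop := ∀ x : R, ∃ y : R, x * y * x = x

/-- Real rank zero: the invertible self-adjoint elements of the unitization are dense in the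
self-adjoint elements. -/
def RealRankZero (A : Type u) [NonUnitalCStarAlgebra A] : Prop :=
  ∀ a : Unitization ℂ A, IsSelfAdjoint a → ∀ ε : ℝ, 0 < ε →
    ∃ b : Unitization ℂ A, IsSelfAdjoint b ∧ IsUnit b ∧ ‖a - b‖ < ε

/-- A commutative monoid isomorphic to a finite power of the natural numbers. -/
def Simplicial (M : Type) [AddCommMonoid M] : Prop := ∃ n : ℕ, Nonempty (M ≃+ (Fin n → ℕ))

variable {P : Type} [Lattice P]

/-- The diagram `M` is naturally isomorphic to `V` of a diagram of regular rings. -/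
def LiftsReg (M : P ⥤ AddCommMonCat.{0}) : Prop :=
  ∃ R : P ⥤ Rng.{u}, (∀ p, Regular (R.obj p).carrier) ∧
    ∃ θ : ∀ p, V (R.obj p).carrier ≃+ M.obj p,
      ∀ (p q : P) (h : p ⟶ q) (x : V (R.obj p).carrier),
        θ q (V.map (R.map h) x) = M.map h (θ p x)

/-- The diagram `M` is naturally isomorphic to `V` of a diagram of C*-algebras of real rank
zero. -/
def LiftsRR0 (M : P ⥤ AddCommMonCat.{0}) : Prop :=
  ∃ A : P ⥤ CSt.{u}, (∀ p, RealRankZero (A.obj p).carrier) ∧
    ∃ θ : ∀ p, VP (A.obj p).carrier ≃+ M.obj p,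
      ∀ (p q : P) (h : p ⟶ q) (x : VP (A.obj p).carrier),
        θ q (VP.map (CSt.ringHom (A.map h)) x) = M.map h (θ p x)

end Pool.Agent.H104Z.Lift
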