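import Pool.Agent.H104Z.Lift.VField
import Pool.Agent.H104Z.Lift.CStar

set_option autoImplicit false
set_option maxHeartbeats 400000
set_option linter.unusedSectionVars false

/-! The configuration of rank one idempotents in the three by three matrices over the field with
two elements. -/

namespace Pool.Agent.H104Z.Lift

open Matrix Finset

/-- The three by three matrices over the field with two elements. -/
abbrev Mat : Type := Matrix (Fin 3) (Fin 3) (ZMod 2)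

/-- The points of the 28 anti-flags of the Fano plane. -/
def pt : Fin 28 → Fin 3 → ZMod 2 :=
  ![![0, 0, 1], ![0, 0, 1], ![0, 0, 1], ![0, 0, 1], ![0, 1, 0], ![0, 1, 0], ![0, 1, 0], ![0, 1,
    0], ![0, 1, 1], ![0, 1, 1], ![0, 1, 1], ![0, 1, 1], ![1, 0, 0], ![1, 0, 0], ![1, 0, 0], ![1,
    0, 0], ![1, 0, 1], ![1, 0, 1], ![1, 0, 1], ![1, 0, 1], ![1, 1, 0], ![1, 1, 0], ![1, 1, 0],
    ![1, 1, 0], ![1, 1, 1], ![1, 1, 1], ![1, 1, 1], ![1, 1, 1]]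

/-- The lines of the 28 anti-flags of the Fano plane. -/
def ln : Fin 28 → Fin 3 → ZMod 2 :=
  ![![0, 0, 1], ![0, 1, 1], ![1, 0, 1], ![1, 1, 1], ![0, 1, 0], ![0, 1, 1], ![1, 1, 0], ![1, 1,
    1], ![0, 0, 1], ![0, 1, 0], ![1, 0, 1], ![1, 1, 0], ![1, 0, 0], ![1, 0, 1], ![1, 1, 0], ![1,
    1, 1], ![0, 0, 1], ![0, 1, 1], ![1, 0, 0], ![1, 1, 0], ![0, 1, 0], ![0, 1, 1], ![1, 0, 0],
    ![1, 0, 1], ![0, 0, 1], ![0, 1, 0], ![1, 0, 0], ![1, 1, 1]]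

/-- The 28 triples of pairwise orthogonal anti-flags. -/
def vtx : Fin 28 → Fin 3 → Fin 28 :=
  ![![0, 4, 12], ![0, 6, 22], ![0, 14, 20], ![1, 9, 12], ![1, 11, 26], ![1, 14, 25], ![2, 4,
    18], ![2, 6, 26], ![2, 19, 25], ![3, 9, 18], ![3, 11, 22], ![3, 19, 20], ![4, 13, 16], ![5,
    8, 12], ![5, 10, 26], ![5, 13, 24], ![6, 23, 24], ![7, 8, 22], ![7, 10, 18], ![7, 16, 23],
    ![8, 15, 21], ![9, 15, 17], ![10, 17, 27], ![11, 21, 27], ![13, 17, 25], ![14, 21, 24],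
    ![15, 16, 20], ![19, 23, 27]]

/-- The rank one idempotent of an anti-flag. -/
def E (v : Fin 28) : Mat := Matrix.of fun i j => pt v i * ln v j

/-- The set of vertices of a triple. -/
def tri (T : Fin 28) : Finset (Fin 28) := {vtx T 0, vtx T 1, vtx T 2}

theorem E_idem : ∀ v, E v * E v = E v := by decide +kernel

theorem E_ne : ∀ v, E v ≠ 0 ∧ 1 - E v ≠ 0 := by decide +kernel

theorem E_orth : ∀ T i j, i ≠ j → E (vtx T i) * E (vtx T j) = 0 := by decide +kernel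

theorem E_sum : ∀ T, E (vtx T 0) + E (vtx T 1) + E (vtx T 2) = 1 := by decide +kernel

theorem E_single : ∀ i j : Fin 3, ∃ v w, Matrix.single i j 1 = E v ∨
    Matrix.single i j 1 = E v + E w := by decide +kernel

theorem tri_inter : ∀ T T', T ≠ T' → (tri T ∩ tri T').card ≤ 1 := by decide +kernel

theorem vtx_mem (T : Fin 28) (i : Fin 3) : vtx T i ∈ tri T := by
  fin_cases i <;> simp [tri]

theorem mem_tri {T v : Fin 28} (h : v ∈ tri T) : ∃ i, v = vtx T i := by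
  simp only [tri, mem_insert, mem_singleton] at h
  rcases h with h | h | h <;> exact ⟨_, h⟩

theorem key {B : Type*} [AddCommGroup B] [Module ℂ B] (Q : Fin 28 → B) (U : B)
    (h : ∀ T, Q (vtx T 0) + Q (vtx T 1) + Q (vtx T 2) = U) : U = (3 : ℂ) • Q 0 := by
  have h0 : Q 0 + Q 4 + Q 12 = U := h 0
  have h1 : Q 0 + Q 6 + Q 22 = U := h 1
  have h2 : Q 0 + Q 14 + Q 20 = U := h 2
  have h3 : Q 1 + Q 9 + Q 12 = U := h 3
  have h4 : Q 1 + Q 11 + Q 26 = U := h 4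
  have h5 : Q 1 + Q 14 + Q 25 = U := h 5
  have h6 : Q 2 + Q 4 + Q 18 = U := h 6
  have h7 : Q 2 + Q 6 + Q 26 = U := h 7
  have h8 : Q 2 + Q 19 + Q 25 = U := h 8
  have h9 : Q 3 + Q 9 + Q 18 = U := h 9
  have h10 : Q 3 + Q 11 + Q 22 = U := h 10
  have h11 : Q 3 + Q 19 + Q 20 = U := h 11
  have h12 : Q 4 + Q 13 + Q 16 = U := h 12
  have h13 : Q 5 + Q 8 + Q 12 = U := h 13
  have h14 : Q 5 + Q 10 + Q 26 = U := h 14
  have h15 : Q 5 + Q 13 + Q 24 = U := h 15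
  have h16 : Q 6 + Q 23 + Q 24 = U := h 16
  have h17 : Q 7 + Q 8 + Q 22 = U := h 17
  have h18 : Q 7 + Q 10 + Q 18 = U := h 18
  have h19 : Q 7 + Q 16 + Q 23 = U := h 19
  have h20 : Q 8 + Q 15 + Q 21 = U := h 20
  have h21 : Q 9 + Q 15 + Q 17 = U := h 21
  have h22 : Q 10 + Q 17 + Q 27 = U := h 22
  have h23 : Q 11 + Q 21 + Q 27 = U := h 23
  have h24 : Q 13 + Q 17 + Q 25 = U := h 24
  have h25 : Q 14 + Q 21 + Q 24 = U := h 25
  have h26 : Q 15 + Q 16 + Q 20 = U := h 26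
  have h27 : Q 19 + Q 23 + Q 27 = U := h 27
  have h' : (6 : ℂ) • Q 0 = (2 : ℂ) • U := by
    linear_combination (norm := module)
      (2 : ℂ) • h0 + (2 : ℂ) • h1 + (2 : ℂ) • h2 + (-1 : ℂ) • h3 + (2 : ℂ) • h4 + (-1 : ℂ) • h5
      + (-1 : ℂ) • h6 + (-1 : ℂ) • h7 + (2 : ℂ) • h8 + (2 : ℂ) • h9 + (-1 : ℂ) • h10 + (-1 : ℂ)
      • h11 + (-1 : ℂ) • h12 + (-1 : ℂ) • h13 + (-1 : ℂ) • h14 + (2 : ℂ) • h15 + (-1 : ℂ) • h16
      + (-1 : ℂ) • h17 + (-1 : ℂ) • h18 + (2 : ℂ) • h19 + (2 : ℂ) • h20 + (-1 : ℂ) • h21 + (2 :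
      ℂ) • h22 + (-1 : ℂ) • h23 + (-1 : ℂ) • h24 + (-1 : ℂ) • h25 + (-1 : ℂ) • h26 + (-1 : ℂ) •
      h27
  linear_combination (norm := module) (-1 / 2 : ℂ) • h'

end Pool.Agent.H104Z.Lift
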