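import Pool.Agent.H104Z.Lift.Fano

set_option autoImplicit false
set_option maxHeartbeats 400000
set_option linter.unusedSectionVars false

/-! A diagram of simplicial monoids that lifts to regular rings but not to C*-algebras of real
rank zero. -/

namespace Pool.Agent.H104Z.Lift

universe u

open Matrix Finset CategoryTheory Pool.Agent.H104Z.Berg

theorem zmod_cases (c : ZMod 2) : c = 0 ∨ c = 1 := by
  revert c
  decide

theorem diag_V {ι : Type} [Fintype ι] [DecidableEq ι] (e : ι → Mat) (h1 : ∀ i, e i * e i = e i)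
    (h2 : ∀ i j, i ≠ j → e i * e j = 0) (h3 : ∑ i, e i = 1) (h4 : ∀ i, e i ≠ 0) (S : Set Mat)
    (h5 : ∀ s ∈ S, ∃ i, s = e i) (h6 : ∀ i, e i ∈ Subring.closure S) :
    Regular (Subring.closure S) ∧ ∃ θ : V (Subring.closure S) ≃+ (ι → ℕ),
      ∀ i, θ (ij (p := ⟨e i, h6 i⟩) (Subtype.ext (h1 i))) = Pi.single i 1 := by
  let h : (ι → Matrix (Fin 1) (Fin 1) (ZMod 2)) →+* Mat :=
    { toFun := fun a => ∑ i, a i 0 0 • e i
      map_one' := by simpa using h3
      map_zero' := by simp
      map_add' := fun a b => by simp [add_smul, sum_add_distrib]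
      map_mul' := fun a b => by
        rw [sum_mul]
        refine sum_congr rfl (fun i _ => ?_)
        rw [mul_sum, sum_eq_single i (fun j _ hj => by simp [h2 i j hj.symm]) (by simp)]
        simp [Matrix.mul_apply, h1, smul_smul, mul_comm] }
  have happ : ∀ a, h a = ∑ i, a i 0 0 • e i := fun _ => rfl
  have hgen : ∀ i, h (Pi.single i (Matrix.single 0 0 1)) = e i := by
    intro i
    rw [happ, sum_eq_single i (fun j _ hj => by simp [Pi.single_eq_of_ne hj]) (by simp)]
    simp
  have hmem : ∀ a, h a ∈ Subring.closure S := by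
    intro a
    rw [happ]
    refine Subring.sum_mem _ (fun i _ => ?_)
    rcases zmod_cases (a i 0 0) with c | c <;> simp [c, h6 i]
  have hinj : Function.Injective h := by
    refine (injective_iff_map_eq_zero h).2 (fun a ha => ?_)
    funext j
    have := congrArg (· * e j) ha
    simp only [happ, sum_mul, zero_mul] at this
    rw [sum_eq_single j (fun i _ hi => by simp [h2 i j hi]) (by simp), smul_mul_assoc, h1] at this
    ext s t
    rw [Subsingleton.elim s 0, Subsingleton.elim t 0]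
    exact (smul_eq_zero.1 this).resolve_right (h4 j)
  have hle : Subring.closure S ≤ h.range := Subring.closure_le.2 (fun s hs => by
    obtain ⟨i, rfl⟩ := h5 s hs
    exact ⟨_, hgen i⟩)
  let φ := RingEquiv.ofBijective (h.codRestrict (Subring.closure S) hmem)
    ⟨fun a b hab => hinj (congrArg Subtype.val hab), fun s => by
      obtain ⟨a, ha⟩ := hle s.2
      exact ⟨a, Subtype.ext ha⟩⟩
  refine ⟨Regular.of_equiv φ regular_pi,
    (Vcongr φ).symm.trans (AddEquiv.ofBijective rk ⟨rk_inj, rk_surj 0⟩), fun i => ?_⟩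
  have : ij (p := (⟨e i, h6 i⟩ : Subring.closure S)) (Subtype.ext (h1 i)) =
      Vcongr φ (ij (gen_idem (F := ZMod 2) i (0 : Fin 1))) :=
    (ij_congr _ _ (Subtype.ext (hgen i).symm)).trans (ij_map φ.toNonUnitalRingHom _).symm
  rw [this, AddEquiv.trans_apply, AddEquiv.symm_apply_apply]
  exact rk_gen i 0

/-- The empty set, the vertices, the triples and the whole set. -/
def Good (a : Finset (Fin 28)) : Prop :=
  a = ∅ ∨ (∃ v, a = {v}) ∨ (∃ T, a = tri T) ∨ a = univ

theorem good_of_card {a : Finset (Fin 28)} (h : a.card ≤ 1) : Good a := by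
  obtain ⟨v, hv⟩ := card_le_one_iff_subset_singleton.1 h
  rcases subset_singleton_iff.1 hv with h | h
  · exact Or.inl h
  · exact Or.inr (Or.inl ⟨v, h⟩)

theorem Good.inter {a b : Finset (Fin 28)} (ha : Good a) (hb : Good b) : Good (a ⊓ b) := by
  have small : ∀ {a : Finset (Fin 28)}, Good a → a.card ≤ 1 ∨ (∃ T, a = tri T) ∨ a = univ := by
    rintro a (rfl | ⟨v, rfl⟩ | h)
    · exact Or.inl (by simp)
    · exact Or.inl (by simp)
    · exact Or.inr h
  rcases small ha with h | ⟨T, rfl⟩ | rfl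
  · exact good_of_card ((card_le_card inf_le_left).trans h)
  · rcases small hb with h | ⟨T', rfl⟩ | rfl
    · exact good_of_card ((card_le_card inf_le_right).trans h)
    · by_cases e : T = T'
      · rw [e, inf_idem]
        exact hb
      · exact good_of_card (tri_inter T T' e)
    · simpa using ha
  · simpa using hb

/-- The index lattice. -/
def Lat : Type := {a : Finset (Fin 28) // Good a}

instance : Finite Lat := Subtype.finite

noncomputable instance : Fintype Lat := Fintype.ofFinite _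

instance : SemilatticeInf Lat := Subtype.semilatticeInf (fun _ _ => Good.inter)

/-- The top element. -/
def top : Lat := ⟨univ, Or.inr (Or.inr (Or.inr rfl))⟩

instance : OrderTop Lat where
  top := top
  le_top a := subset_univ a.1

open Classical in
noncomputable instance : Lattice Lat where
  sup a b := (univ.filter (fun c => a ≤ c ∧ b ≤ c)).inf id
  le_sup_left _ _ := Finset.le_inf (fun _ hc => (mem_filter.1 hc).2.1)
  le_sup_right _ _ := Finset.le_inf (fun _ hc => (mem_filter.1 hc).2.2)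
  sup_le _ _ c h1 h2 := Finset.inf_le (f := id) (mem_filter.2 ⟨mem_univ c, h1, h2⟩)

/-- The ring generated by a set of idempotents. -/
def RR (a : Finset (Fin 28)) : Subring Mat := Subring.closure (E '' (a : Set (Fin 28)))

theorem RR_mono {a b : Finset (Fin 28)} (h : a ⊆ b) : RR a ≤ RR b :=
  Subring.closure_mono (Set.image_mono (by exact_mod_cast h))

theorem E_mem {a : Finset (Fin 28)} {v : Fin 28} (h : v ∈ a) : E v ∈ RR a :=
  Subring.subset_closure ⟨v, h, rfl⟩

section Generic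

variable {A : Type} [Ring A]

/-- The inclusion of subrings. -/
def incl {S T : Subring A} (h : S ≤ T) : S →ₙ+* T where
  toFun x := ⟨x.1, h x.2⟩
  map_mul' _ _ := rfl
  map_zero' := rfl
  map_add' _ _ := rfl

theorem incl_ij {S T : Subring A} (h : S ≤ T) {x : A} (hx : x ∈ S) (hxx : x * x = x) :
    V.map (incl h) (ij (p := ⟨x, hx⟩) (Subtype.ext hxx)) =
      ij (p := ⟨x, h hx⟩) (Subtype.ext hxx) := rfl

variable {P : Type} [Lattice P] (S : P → Subring A) (hS : ∀ a b, a ≤ b → S a ≤ S b)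

/-- The diagram of rings. -/
def RF : P ⥤ Rng.{0} where
  obj a := { carrier := S a }
  map h := incl (hS _ _ (leOfHom h))
  map_id _ := NonUnitalRingHom.ext fun _ => rfl
  map_comp _ _ := NonUnitalRingHom.ext fun _ => rfl

/-- The diagram of monoids. -/
def MF : P ⥤ AddCommMonCat.{0} where
  obj a := AddCommMonCat.of (V (S a))
  map h := AddCommMonCat.ofHom (V.map (incl (hS _ _ (leOfHom h))))
  map_id _ := by
    ext ⟨x⟩
    rfl
  map_comp _ _ := by
    ext ⟨x⟩
    rfl

theorem lifts_reg (h : ∀ a, Regular (S a)) : LiftsReg.{0} (MF S hS) :=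
  ⟨RF S hS, h, fun _ => AddEquiv.refl _, fun _ _ _ _ => rfl⟩

theorem simp_MF (h : ∀ a, Simplicial (V (S a))) (a : P) : Simplicial ((MF S hS).obj a) := h a

theorem lifts_rr0 (h : LiftsRR0.{u} (MF S hS)) : ∃ A : P → CSt.{u},
    (∀ a, RealRankZero (A a).carrier) ∧
    ∃ (G : ∀ {a b : P}, a ≤ b → ((A a).carrier →⋆ₙ+* (A b).carrier))
      (τ : ∀ a, VP (A a).carrier ≃+ V (S a)),
      (∀ {a b c : P} (h : a ≤ b) (h' : b ≤ c) (x : (A a).carrier),
        G h' (G h x) = G (h.trans h') x) ∧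
      ∀ {a b : P} (h : a ≤ b) {p : (A a).carrier} (hp : IsStarProjection p),
        τ b (pj (hp.map (G h))) = V.map (incl (hS _ _ h)) (τ a (pj hp)) := by
  obtain ⟨A, hA, θ, hθ⟩ := h
  exact ⟨A.obj, hA, fun h => CSt.ringHom (A.map (homOfLE h)), θ, fun h h' x =>
    (congrArg (fun f => CSt.ringHom f x) (A.map_comp (homOfLE h) (homOfLE h'))).symm,
    fun h p hp => hθ _ _ (homOfLE h) (pj hp)⟩

end Generic

theorem RR_lat (a b : Lat) (h : a ≤ b) : RR a.1 ≤ RR b.1 := RR_mono h

/-- The class of the unit. -/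
def one (a : Finset (Fin 28)) : V (RR a) :=
  ij (p := ⟨1, Subring.one_mem _⟩) (Subtype.ext (one_mul 1))

/-- The class of a rank one idempotent. -/
def cl {a : Finset (Fin 28)} {v : Fin 28} (h : v ∈ a) : V (RR a) :=
  ij (p := ⟨E v, E_mem h⟩) (Subtype.ext (E_idem v))

theorem V_empty : Regular (RR ∅) ∧ ∃ θ : V (RR ∅) ≃+ (Fin 1 → ℕ), θ (one ∅) = Pi.single 0 1 := by
  obtain ⟨h, θ, hθ⟩ := diag_V (fun _ : Fin 1 => (1 : Mat)) (fun _ => one_mul _)
    (fun i j h => absurd (Subsingleton.elim i j) h) (by simp) (fun _ => one_ne_zero)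
    (E '' ((∅ : Finset (Fin 28)) : Set (Fin 28))) (by simp) (fun _ => Subring.one_mem _)
  exact ⟨h, θ, hθ 0⟩

theorem V_single (v : Fin 28) : Regular (RR {v}) ∧ Nonempty (V (RR {v}) ≃+ (Fin 2 → ℕ)) := by
  have hv := E_mem (mem_singleton_self v)
  obtain ⟨h, θ, -⟩ := diag_V ![E v, 1 - E v]
    (fun i => by fin_cases i <;> simp [E_idem, mul_sub, sub_mul])
    (fun i j h => by fin_cases i <;> fin_cases j <;> simp_all [E_idem, mul_sub, sub_mul])
    (by simp) (fun i => by fin_cases i; exacts [(E_ne v).1, (E_ne v).2])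
    (E '' (({v} : Finset (Fin 28)) : Set (Fin 28))) (by simp)
    (fun i => by fin_cases i; exacts [hv, Subring.sub_mem _ (Subring.one_mem _) hv])
  exact ⟨h, ⟨θ⟩⟩

theorem V_tri (T : Fin 28) : Regular (RR (tri T)) ∧ ∃ θ : V (RR (tri T)) ≃+ (Fin 3 → ℕ),
    ∀ i, θ (cl (vtx_mem T i)) = Pi.single i 1 :=
  diag_V (fun i => E (vtx T i)) (fun _ => E_idem _) (E_orth T)
    (by rw [Fin.sum_univ_three, E_sum]) (fun _ => (E_ne _).1) _
    (by
      rintro _ ⟨v, hv, rfl⟩
      obtain ⟨i, rfl⟩ := mem_tri hv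
      exact ⟨i, rfl⟩) (fun i => E_mem (vtx_mem T i))

theorem RR_univ (x : Mat) : x ∈ RR univ := by
  rw [Matrix.matrix_eq_sum_single x]
  refine Subring.sum_mem _ (fun i _ => Subring.sum_mem _ (fun j _ => ?_))
  rcases zmod_cases (x i j) with c | c
  · rw [c, Matrix.single_zero]
    exact Subring.zero_mem _
  · obtain ⟨v, w, h | h⟩ := E_single i j <;> rw [c, h]
    · exact E_mem (mem_univ _)
    · exact Subring.add_mem _ (E_mem (mem_univ _)) (E_mem (mem_univ _))

theorem V_univ : Regular (RR univ) ∧ Nonempty (V (RR univ) ≃+ (Fin 1 → ℕ)) := by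
  let φ : (Fin 1 → Mat) ≃+* RR univ := (RingEquiv.piUnique (fun _ : Fin 1 => Mat)).trans
    (RingEquiv.ofBijective (RR univ).subtype ⟨Subtype.val_injective,
      fun x => ⟨⟨x, RR_univ x⟩, rfl⟩⟩).symm
  exact ⟨Regular.of_equiv φ regular_pi,
    ⟨(Vcongr φ).symm.trans (AddEquiv.ofBijective rk ⟨rk_inj, rk_surj 0⟩)⟩⟩

theorem reg_simp (a : Lat) : Regular (RR a.1) ∧ Simplicial (V (RR a.1)) := by
  obtain ⟨a, rfl | ⟨v, rfl⟩ | ⟨T, rfl⟩ | rfl⟩ := a
  · obtain ⟨h, θ, -⟩ := V_empty
    exact ⟨h, 1, ⟨θ⟩⟩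
  · exact ⟨(V_single v).1, 2, (V_single v).2⟩
  · obtain ⟨h, θ, -⟩ := V_tri T
    exact ⟨h, 3, ⟨θ⟩⟩
  · exact ⟨V_univ.1, 1, V_univ.2⟩

theorem one_ne (a : Finset (Fin 28)) {k : ℕ} (h : k • one a = 0) : k = 0 := by
  rcases k with _ | k
  · rfl
  · rw [succ_nsmul] at h
    exact absurd (ij_eq_zero _ (V.conical _ _ h).2) one_ne_zero

theorem one_split (v : Fin 28) : ∃ y, one {v} = cl (mem_singleton_self v) + y := by
  have hv := E_mem (mem_singleton_self v)
  let p : RR {v} := ⟨E v, hv⟩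
  have hp : p * p = p := Subtype.ext (E_idem v)
  refine ⟨ij (p := 1 - p) (by simp [mul_sub, sub_mul, hp]), ?_⟩
  refine Eq.trans (ij_congr _ _ (Subtype.ext (add_sub_cancel (E v) 1).symm)) (ij_add hp _ ?_ ?_)
  · simp [mul_sub, hp]
  · simp [sub_mul, hp]

theorem one_tri (T : Fin 28) :
    one (tri T) = cl (vtx_mem T 0) + cl (vtx_mem T 1) + cl (vtx_mem T 2) := by
  let p : Fin 3 → RR (tri T) := fun i => ⟨E (vtx T i), E_mem (vtx_mem T i)⟩
  have hp : ∀ i, p i * p i = p i := fun i => Subtype.ext (E_idem _)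
  have ho : ∀ i j, i ≠ j → p i * p j = 0 := fun i j h => Subtype.ext (E_orth T i j h)
  have h1 := ij_add (hp 0) (hp 1) (ho 0 1 (by decide)) (ho 1 0 (by decide))
  have h2 := ij_add (p := p 0 + p 1) (q := p 2)
    (by rw [add_mul, mul_add, mul_add, hp, hp, ho 0 1 (by decide), ho 1 0 (by decide)]; simp) (hp 2)
    (by rw [add_mul, ho 0 2 (by decide), ho 1 2 (by decide), add_zero])
    (by rw [mul_add, ho 2 0 (by decide), ho 2 1 (by decide), add_zero])
  rw [h1] at h2
  exact Eq.trans (ij_congr _ _ (Subtype.ext (E_sum T).symm)) h2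

theorem not_lifts : ¬ LiftsRR0.{u} (MF (fun a : Lat => RR a.1) RR_lat) := by
  intro hl
  obtain ⟨A, hA, G, τ, Gc, hτ⟩ := lifts_rr0 _ _ hl
  let b0 : Lat := ⟨∅, Or.inl rfl⟩
  let pv : Fin 28 → Lat := fun v => ⟨{v}, Or.inr (Or.inl ⟨v, rfl⟩)⟩
  let pT : Fin 28 → Lat := fun T => ⟨tri T, Or.inr (Or.inr (Or.inl ⟨T, rfl⟩))⟩
  have hb : ∀ a : Lat, b0 ≤ a := fun a => empty_subset a.1
  have hvT : ∀ T i, pv (vtx T i) ≤ pT T := fun T i => singleton_subset_iff.2 (vtx_mem T i)
  obtain ⟨x, hx⟩ : ∃ x : (A b0).carrier, x ≠ 0 := by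
    by_contra hcon
    push Not at hcon
    have h0 : ∀ y : VP (A b0).carrier, y = 0 := by
      rintro ⟨a⟩
      exact Quotient.sound ⟨0, by ext; exact (hcon _).trans (hcon _).symm,
        by ext i; exact i.elim0⟩
    have h1 : 1 • one ∅ = 0 := by
      rw [one_nsmul, ← (τ b0).apply_symm_apply (one ∅), h0 ((τ b0).symm _), map_zero]
    exact one_ne_zero (one_ne _ h1)
  obtain ⟨u, -, -, hu, hu0, -⟩ := exists_sub (hA b0) hx
  obtain ⟨k, hk⟩ : ∃ k : ℕ, τ b0 (pj hu) = k • one ∅ := by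
    obtain ⟨-, η, hη⟩ := V_empty
    refine ⟨η (τ b0 (pj hu)) 0, η.injective ?_⟩
    rw [map_nsmul, hη]
    funext i
    rw [Subsingleton.elim i 0]
    simp
  have hua : ∀ a : Lat, τ a (pj (hu.map (G (hb a)))) = k • one a.1 := fun a => by
    rw [hτ (hb a) hu, hk, map_nsmul]
    exact congrArg (k • ·) (incl_ij _ _ (one_mul 1))
  have hP : ∀ v, ∃ (p : (A (pv v)).carrier) (hp : IsStarProjection p),
      τ (pv v) (pj hp) = k • cl (mem_singleton_self v) ∧ G (hb (pv v)) u * p = p := by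
    intro v
    obtain ⟨y, hy⟩ := one_split v
    obtain ⟨p, hp, h1, h2⟩ := pj_split (hu.map (G (hb (pv v))))
      (α := (τ (pv v)).symm (k • cl (mem_singleton_self v))) (β := (τ (pv v)).symm (k • y))
      ((τ (pv v)).injective (by
        rw [hua, map_add, AddEquiv.apply_symm_apply, AddEquiv.apply_symm_apply, ← nsmul_add]
        exact congrArg (k • ·) hy))
    exact ⟨p, hp, by rw [h1, AddEquiv.apply_symm_apply], h2⟩
  choose p hp hp1 hp2 using hP
  have hT : ∀ T, G (hvT T 0) (p _) + G (hvT T 1) (p _) + G (hvT T 2) (p _) = G (hb (pT T)) u := by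
    intro T
    obtain ⟨-, η, hη⟩ := V_tri T
    have hq : ∀ i, IsStarProjection (G (hvT T i) (p _)) := fun i => (hp _).map _
    have c1 : ∀ i, η (τ (pT T) (pj (hq i))) = Pi.single i k := fun i => by
      rw [hτ (hvT T i) (hp _), hp1, map_nsmul]
      refine (congrArg (fun t => η (k • t)) (incl_ij _ _ (E_idem _))).trans ?_
      refine (map_nsmul η k (cl (vtx_mem T i))).trans ?_
      rw [hη, ← Pi.single_smul, smul_eq_mul, mul_one]
    have c2 : ∀ i j, i ≠ j → G (hvT T i) (p _) * G (hvT T j) (p _) = 0 := by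
      intro i j hij
      refine orth (hA (pT T)) (hq i) (hq j) (fun x y z h1 h2 => ?_)
      refine (τ (pT T)).injective (η.injective ?_)
      have d1 := c1 i
      have d2 := c1 j
      rw [h1, map_add, map_add] at d1
      rw [h2, map_add, map_add] at d2
      rw [map_zero, map_zero]
      funext l
      have e1 := congrFun d1 l
      have e2 := congrFun d2 l
      rw [Pi.add_apply] at e1 e2
      by_cases hl : l = i
      · rw [Pi.single_eq_of_ne (hl ▸ hij)] at e2
        exact (Nat.add_eq_zero_iff.1 e2).1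
      · rw [Pi.single_eq_of_ne hl] at e1
        exact (Nat.add_eq_zero_iff.1 e1).1
    have c3 : ∀ i, G (hb (pT T)) u * G (hvT T i) (p _) = G (hvT T i) (p _) := fun i => by
      rw [← Gc (hb _) (hvT T i), ← map_mul, hp2]
    have s1 := (hq 0).add (hq 1) (c2 0 1 (by decide))
    have o2 : (G (hvT T 0) (p _) + G (hvT T 1) (p _)) * G (hvT T 2) (p _) = 0 := by
      rw [add_mul, c2 0 2 (by decide), c2 1 2 (by decide), add_zero]
    have s2 := s1.add (hq 2) o2
    have c4 := pj_sub s2 (hu.map (G (hb (pT T)))) (by rw [mul_add, mul_add, c3, c3, c3])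
    rw [pj_add s1 (hq 2) o2, pj_add (hq 0) (hq 1) (c2 0 1 (by decide))] at c4
    have c5 := congrArg (fun t => η (τ (pT T) t)) c4
    simp only [map_add, c1, hua] at c5
    have c6 : η (k • one (tri T)) = Pi.single 0 k + Pi.single 1 k + Pi.single 2 k := by
      rw [map_nsmul, one_tri, map_add, map_add, hη, hη, hη]
      funext l
      fin_cases l <;> simp
    have c7 := left_eq_add.1 (c6.symm.trans c5)
    rw [AddEquiv.map_eq_zero_iff, AddEquiv.map_eq_zero_iff] at c7
    exact (sub_eq_zero.1 (pj_eq_zero _ c7)).symm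
  let Q : Fin 28 → (A top).carrier := fun v => G (le_top (a := pv v)) (p v)
  have hU := key Q (G (hb top) u) (fun T => by
    have := congrArg (G (le_top (a := pT T))) (hT T)
    rwa [map_add, map_add, Gc, Gc, Gc, Gc] at this)
  have hQ : Q 0 * Q 0 = Q 0 := ((hp 0).map (G (le_top (a := pv 0)))).isIdempotentElem.eq
  have hUU := (hu.map (G (hb top))).isIdempotentElem.eq
  have hQ0 : Q 0 = 0 := by
    rw [hU, smul_mul_smul_comm, hQ] at hUU
    linear_combination (norm := module) (1 / 6 : ℂ) • hUU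
  have h0 : k • one univ = 0 := by
    refine (hua top).symm.trans ((τ top).map_eq_zero_iff.2 ?_)
    refine Quotient.sound ⟨0, ?_, by ext i; exact i.elim0⟩
    have hz : G (hb top) u = 0 := by rw [hU, hQ0, smul_zero]
    ext i j
    exact (congrFun (congrFun (Matrix.mul_zero _) i) j).trans hz.symm
  rw [one_ne _ h0, zero_nsmul, AddEquiv.map_eq_zero_iff] at hk
  exact hu0 (pj_eq_zero hu hk)

theorem main : ∃ (P : Type) (_ : Lattice P) (_ : Finite P) (M : P ⥤ AddCommMonCat.{0}),
    (∀ p, Simplicial (M.obj p)) ∧ LiftsReg.{0} M ∧ ¬ LiftsRR0.{u} M :=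
  ⟨Lat, inferInstance, inferInstance, MF (fun a : Lat => RR a.1) RR_lat,
    simp_MF _ _ (fun p => (reg_simp p).2), lifts_reg _ _ (fun p => (reg_simp p).1), not_lifts⟩

end Pool.Agent.H104Z.Lift
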