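import Pool.Agent.H104Z.Lift.Defs

set_option autoImplicit false
set_option maxHeartbeats 400000
set_option linter.unusedSectionVars false

/-! Nonstable K-theory of finite products of matrix rings over a field. -/

namespace Pool.Agent.H104Z.Lift

open Matrix Pool.Agent.H104Z.Berg

section Field

variable {F : Type} [Field F] {n m : Type} [Fintype n] [Fintype m]

theorem rank_le_of_mvn {e : Matrix n n F} {f : Matrix m m F} (he : e * e = e) (h : MvN e f) :
    e.rank ≤ f.rank := by
  obtain ⟨x, y, h1, h2⟩ := h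
  have : e = x * f * y := by rw [h2, ← Matrix.mul_assoc, ← h1, Matrix.mul_assoc, ← h1, he]
  rw [this]
  exact (rank_mul_le_left _ _).trans (rank_mul_le_right _ _)

theorem rank_eq_of_mvn {e : Matrix n n F} {f : Matrix m m F} (he : e * e = e) (hf : f * f = f)
    (h : MvN e f) : e.rank = f.rank :=
  le_antisymm (rank_le_of_mvn he h) (rank_le_of_mvn hf h.symm)

theorem mvn_one {e : Matrix n n F} (he : e * e = e) {r : ℕ} (hr : e.rank = r) :
    MvN e (1 : Matrix (Fin r) (Fin r) F) := by
  classical
  let L := Matrix.toLin' e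
  have hL : ∀ v, L (L v) = L v := fun v => by
    rw [← LinearMap.comp_apply, ← Matrix.toLin'_mul, he]
  have hfin : Module.finrank F (LinearMap.range L) = r := by
    rw [← hr, Matrix.rank]
    rfl
  let b := Module.finBasisOfFinrankEq F (LinearMap.range L) hfin
  let X : (Fin r → F) →ₗ[F] (n → F) := (LinearMap.range L).subtype ∘ₗ b.equivFun.symm.toLinearMap
  let Y : (n → F) →ₗ[F] (Fin r → F) := b.equivFun.toLinearMap ∘ₗ L.rangeRestrict
  have h1 : X ∘ₗ Y = L := LinearMap.ext fun v => by
    change (b.equivFun.symm (b.equivFun (L.rangeRestrict v)) : n → F) = L v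
    rw [LinearEquiv.symm_apply_apply]
    rfl
  have h2 : Y ∘ₗ X = LinearMap.id := LinearMap.ext fun v => by
    have : L.rangeRestrict (b.equivFun.symm v : n → F) = b.equivFun.symm v := by
      obtain ⟨w, hw⟩ := (b.equivFun.symm v).2
      refine Subtype.ext ?_
      change L _ = _
      rw [← hw, hL]
    change b.equivFun (L.rangeRestrict (b.equivFun.symm v : n → F)) = v
    rw [this, LinearEquiv.apply_symm_apply]
  refine ⟨LinearMap.toMatrix' X, LinearMap.toMatrix' Y, ?_, ?_⟩
  · rw [← LinearMap.toMatrix'_comp, h1, LinearMap.toMatrix'_toLin']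
  · rw [← LinearMap.toMatrix'_comp, h2, LinearMap.toMatrix'_id]

theorem mvn_of_rank {e : Matrix n n F} {f : Matrix m m F} (he : e * e = e) (hf : f * f = f)
    (h : e.rank = f.rank) : MvN e f :=
  MvN.trans he hf (mvn_one he h) (mvn_one hf rfl).symm

theorem rank_blocks {e : Matrix n n F} {f : Matrix m m F} (he : e * e = e) (hf : f * f = f) :
    (fromBlocks e 0 0 f).rank = e.rank + f.rank := by
  have h := MvN.blocks (mvn_one he rfl) (mvn_one hf rfl)
  rw [rank_eq_of_mvn (idem_blocks he hf) (idem_blocks (Matrix.one_mul _) (Matrix.one_mul _)) h,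
    fromBlocks_one, rank_one]
  simp

theorem regular_matrix [DecidableEq n] (x : Matrix n n F) : ∃ y, x * y * x = x := by
  let L := Matrix.toLin' x
  obtain ⟨g, hg⟩ := L.rangeRestrict.exists_rightInverse_of_surjective L.range_rangeRestrict
  obtain ⟨g', hg'⟩ := LinearMap.exists_extend g
  refine ⟨LinearMap.toMatrix' g', Matrix.toLin'.injective ?_⟩
  rw [Matrix.toLin'_mul, Matrix.toLin'_mul, Matrix.toLin'_toMatrix']
  refine LinearMap.ext fun v => ?_
  have h1 : g' (L v) = g (L.rangeRestrict v) := LinearMap.congr_fun hg' (L.rangeRestrict v)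
  have h2 : L.rangeRestrict (g (L.rangeRestrict v)) = L.rangeRestrict v :=
    LinearMap.congr_fun hg _
  change L (g' (L v)) = L v
  rw [h1]
  exact congrArg Subtype.val h2

end Field

section General

variable {R S : Type} [NonUnitalRing R] [NonUnitalRing S]

/-- An idempotent as a one by one idempotent matrix. -/
def id1 {p : R} (hp : p * p = p) : Idem R :=
  ⟨1, Matrix.of fun _ _ => p, by
    ext i j
    rw [Matrix.mul_apply, Fin.sum_univ_one]
    exact hp⟩

/-- The class of an idempotent. -/
def ij {p : R} (hp : p * p = p) : V R := V.mk (id1 hp)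

theorem ij_congr {p q : R} (hp : p * p = p) (hq : q * q = q) (h : p = q) : ij hp = ij hq := by
  subst h
  rfl

theorem ij_map (φ : R →ₙ+* S) {p : R} (hp : p * p = p) :
    V.map φ (ij hp) = ij (p := φ p) (by rw [← map_mul, hp]) := rfl

theorem ij_add {p q : R} (hp : p * p = p) (hq : q * q = q) (h : p * q = 0) (h' : q * p = 0) :
    ij (p := p + q) (by rw [add_mul, mul_add, mul_add, hp, hq, h, h']; simp) = ij hp + ij hq := by
  refine Quotient.sound (MvN.trans (id1 _).idem (Idem.add (id1 hp) (id1 hq)).idem ?_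
    (Idem.add_mvn (id1 hp) (id1 hq)))
  change MvN (Matrix.of fun (_ _ : Fin 1) => p + q)
    (fromBlocks (Matrix.of fun (_ _ : Fin 1) => p) 0 0 (Matrix.of fun (_ _ : Fin 1) => q))
  refine ⟨Matrix.of fun _ j => Sum.elim (fun _ => p) (fun _ => q) j,
    Matrix.of fun j _ => Sum.elim (fun _ => p) (fun _ => q) j, ?_, ?_⟩
  · ext i j
    simp [Matrix.mul_apply, hp, hq]
  · ext i j
    rcases i with i | i <;> rcases j with j | j <;> simp [Matrix.mul_apply, hp, hq, h, h']

theorem ij_eq_zero {p : R} (hp : p * p = p) (h : ij hp = 0) : p = 0 := by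
  obtain ⟨x, y, h1, -⟩ : MvN (Matrix.of fun (_ _ : Fin 1) => p) (0 : Matrix (Fin 0) (Fin 0) R) :=
    Quotient.exact h
  have := congrFun (congrFun h1 0) 0
  rw [Matrix.mul_apply, Fin.sum_univ_zero] at this
  exact this

/-- Isomorphic rings have isomorphic monoids. -/
def Vcongr (φ : R ≃+* S) : V R ≃+ V S where
  toFun := V.map φ.toNonUnitalRingHom
  invFun := V.map φ.symm.toNonUnitalRingHom
  left_inv := by
    rintro ⟨⟨n, e, he⟩⟩
    refine congrArg V.mk ?_
    unfold Idem.map
    congr 1
    ext i j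
    exact φ.symm_apply_apply _
  right_inv := by
    rintro ⟨⟨n, e, he⟩⟩
    refine congrArg V.mk ?_
    unfold Idem.map
    congr 1
    ext i j
    exact φ.apply_symm_apply _
  map_add' := map_add _

theorem Regular.of_equiv (φ : R ≃+* S) (h : Regular R) : Regular S := fun x => by
  obtain ⟨y, hy⟩ := h (φ.symm x)
  exact ⟨φ y, by rw [← φ.apply_symm_apply x, ← map_mul, ← map_mul, hy]⟩

end General

section Pi

variable {F : Type} [Field F] {ι δ : Type} [Fintype ι] [Fintype δ] [DecidableEq ι] [DecidableEq δ]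
  {n m l : Type} [Fintype n] [Fintype m] [Fintype l]

/-- The component of a matrix over a product of matrix rings. -/
def cm (i : ι) (e : Matrix n m (ι → Matrix δ δ F)) : Matrix (n × δ) (m × δ) F :=
  Matrix.of fun p q => e p.1 q.1 i p.2 q.2

theorem cm_mul (i : ι) (x : Matrix n m (ι → Matrix δ δ F)) (y : Matrix m l (ι → Matrix δ δ F)) :
    cm i (x * y) = cm i x * cm i y := by
  ext p q
  simp [cm, Matrix.mul_apply, Fintype.sum_prod_type, Finset.sum_apply, Matrix.sum_apply]

theorem cm_idem (i : ι) {e : Matrix n n (ι → Matrix δ δ F)} (he : e * e = e) :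
    cm i e * cm i e = cm i e := by rw [← cm_mul, he]

theorem cm_mvn (i : ι) {e : Matrix n n (ι → Matrix δ δ F)} {f : Matrix m m (ι → Matrix δ δ F)}
    (h : MvN e f) : MvN (cm i e) (cm i f) := by
  obtain ⟨x, y, h1, h2⟩ := h
  exact ⟨cm i x, cm i y, by rw [h1, cm_mul], by rw [h2, cm_mul]⟩

/-- The rank vector. -/
noncomputable def rk : V (ι → Matrix δ δ F) →+ (ι → ℕ) where
  toFun := Quotient.lift (fun a i => (cm i a.e).rank) (fun a b h => funext fun i =>
    rank_eq_of_mvn (cm_idem i a.idem) (cm_idem i b.idem) (cm_mvn i h))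
  map_zero' := funext fun i => by
    change (cm i (0 : Matrix (Fin 0) (Fin 0) (ι → Matrix δ δ F))).rank = 0
    rw [show cm i (0 : Matrix (Fin 0) (Fin 0) (ι → Matrix δ δ F)) = 0 from rfl, rank_zero]
  map_add' := by
    rintro ⟨a⟩ ⟨b⟩
    funext i
    change (cm i (Idem.add a b).e).rank = (cm i a.e).rank + (cm i b.e).rank
    have h1 := cm_idem i (idem_blocks a.idem b.idem)
    rw [← rank_eq_of_mvn h1 (cm_idem i (Idem.add a b).idem) (cm_mvn i (Idem.add_mvn a b)),
      ← rank_blocks (cm_idem i a.idem) (cm_idem i b.idem)]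
    refine rank_eq_of_mvn h1 (idem_blocks (cm_idem i a.idem) (cm_idem i b.idem))
      (MvN.of_equiv (Equiv.sumProdDistrib _ _ _) h1 ?_)
    rintro ⟨p | p, s⟩ ⟨q | q, t⟩ <;> rfl

theorem rk_inj : Function.Injective (rk : V (ι → Matrix δ δ F) → ι → ℕ) := by
  rintro ⟨a⟩ ⟨b⟩ h
  have h1 : ∀ i, MvN (cm i a.e) (cm i b.e) :=
    fun i => mvn_of_rank (cm_idem i a.idem) (cm_idem i b.idem) (congrFun h i)
  choose x y h2 h3 using h1
  let X : Matrix (Fin a.n) (Fin b.n) (ι → Matrix δ δ F) :=
    Matrix.of fun p q i => Matrix.of fun s t => x i (p, s) (q, t)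
  let Y : Matrix (Fin b.n) (Fin a.n) (ι → Matrix δ δ F) :=
    Matrix.of fun p q i => Matrix.of fun s t => y i (p, s) (q, t)
  refine Quotient.sound ⟨X, Y, ?_, ?_⟩
  · ext p q i s t
    exact congrFun (congrFun ((h2 i).trans (cm_mul i X Y).symm) (p, s)) (q, t)
  · ext p q i s t
    exact congrFun (congrFun ((h3 i).trans (cm_mul i Y X).symm) (p, s)) (q, t)

theorem gen_idem (i : ι) (s : δ) :
    (Pi.single i (Matrix.single s s (1 : F)) : ι → Matrix δ δ F) *
      Pi.single i (Matrix.single s s 1) = Pi.single i (Matrix.single s s 1) := by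
  rw [← Pi.single_mul, Matrix.single_mul_single_same, one_mul]

theorem rk_gen (i : ι) (s : δ) : rk (ij (gen_idem (F := F) i s)) = Pi.single i 1 := by
  funext j
  let e : Matrix (Fin 1) (Fin 1) (ι → Matrix δ δ F) :=
    Matrix.of fun _ _ => Pi.single i (Matrix.single s s 1)
  change (cm j e).rank = _
  have h0 : cm j e * cm j e = cm j e := cm_idem j (id1 (gen_idem (F := F) i s)).idem
  by_cases h : j = i
  · subst h
    rw [Pi.single_eq_same, rank_eq_of_mvn (f := (1 : Matrix (Fin 1) (Fin 1) F)) h0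
      (Matrix.one_mul _), rank_one, Fintype.card_fin]
    refine ⟨Matrix.of fun p _ => if p.2 = s then 1 else 0,
      Matrix.of fun _ p => if p.2 = s then 1 else 0, ?_, ?_⟩
    · ext p q
      simp only [cm, e, Matrix.mul_apply, Matrix.of_apply, Pi.single_eq_same, Fin.sum_univ_one,
        Matrix.single_apply]
      by_cases h1 : s = p.2 <;> by_cases h2 : s = q.2 <;> simp [h1, h2, eq_comm]
    · ext p q
      rw [Subsingleton.elim p q, Matrix.one_apply_eq]
      simp [Matrix.mul_apply, Fintype.sum_prod_type]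
  · rw [Pi.single_eq_of_ne h]
    have : cm j e = 0 := by
      ext p q
      simp [cm, e, Pi.single_eq_of_ne h]
    rw [this, rank_zero]

theorem rk_surj (s : δ) : Function.Surjective (rk : V (ι → Matrix δ δ F) → ι → ℕ) := by
  intro x
  refine ⟨∑ i, x i • ij (gen_idem (F := F) i s), ?_⟩
  rw [map_sum]
  simp only [map_nsmul, rk_gen]
  funext j
  simp [Finset.sum_apply, Pi.single_apply]

theorem regular_pi : Regular (ι → Matrix δ δ F) := fun x => by
  choose y hy using fun i => regular_matrix (x i)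
  exact ⟨y, funext hy⟩

end Pi

end Pool.Agent.H104Z.Lift
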